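import Pool.Agent.J6H91.TZ.Stm

/-!
Bessel's inequality for absolutely convergent series on the torus (module TZ-PAR of helper91).
-/

set_option autoImplicit false

namespace Pool.Agent.J6H96.TZ

open Finset Pool.Agent.J6H91.Cyc

theorem par : Pool.Agent.J6H91.TZ.S_PAR := by
  classical
  intro σ _ _ G C hs hC
  set a : (σ →₀ ℕ) → ℂ := fun k => MvPowerSeries.coeff k G with ha
  have hC0 : 0 ≤ C := (norm_nonneg _).trans (hC (fun _ => 1) fun _ => norm_one)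
  have hnf : ∀ (z : σ → ℂ), (∀ j, ‖z j‖ = 1) → ∀ k : σ →₀ ℕ, ‖a k * ∏ j, z j ^ k j‖ = ‖a k‖ := by
    intro z hz k
    rw [norm_mul, norm_prod]
    have : ∏ j, ‖z j ^ k j‖ = 1 := Finset.prod_eq_one fun j _ => by rw [norm_pow, hz j, one_pow]
    rw [this, mul_one]
  -- large finite sets
  have h1 : ∀ ε : ℝ, 0 < ε → ∃ S0 : Finset (σ →₀ ℕ), ∀ S, S0 ⊆ S →
      ∑ k ∈ S, ‖a k‖ ^ 2 ≤ (C + ε) ^ 2 := by
    intro ε hε
    have h2 := hs.hasSum.eventually (lt_mem_nhds (show ∑' k, ‖a k‖ - ε < ∑' k, ‖a k‖ by linarith))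
    obtain ⟨S0, hS0⟩ := Filter.eventually_atTop.1 h2
    refine ⟨S0, fun S hS => ?_⟩
    have h3 : ∑' k, ‖a k‖ - ∑ k ∈ S, ‖a k‖ ≤ ε := by
      have := hS0 S hS
      simp only [ha] at this ⊢
      linarith
    have h4 : ∀ z : σ → ℂ, (∀ j, ‖z j‖ = 1) → ‖∑ k ∈ S, a k * ∏ j, z j ^ k j‖ ≤ C + ε := by
      intro z hz
      have hsf : Summable fun k => ‖a k * ∏ j, z j ^ k j‖ := by
        simp only [hnf z hz]
        exact hs
      have h5 := hsf.of_norm.sum_add_tsum_compl (s := S)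
      have h6 : ∑ k ∈ S, a k * ∏ j, z j ^ k j = ∑' k, a k * ∏ j, z j ^ k j -
          ∑' k : ↑(↑S : Set (σ →₀ ℕ))ᶜ, a k * ∏ j, z j ^ (k : σ →₀ ℕ) j := by
        rw [← h5]
        ring
      have h7 : ‖∑' k : ↑(↑S : Set (σ →₀ ℕ))ᶜ, a k * ∏ j, z j ^ (k : σ →₀ ℕ) j‖ ≤ ε := by
        refine (norm_tsum_le_tsum_norm (hsf.subtype _)).trans ?_
        have h8 : ∑' k : ↑(↑S : Set (σ →₀ ℕ))ᶜ, ‖a k * ∏ j, z j ^ (k : σ →₀ ℕ) j‖ =
            ∑' k : ↑(↑S : Set (σ →₀ ℕ))ᶜ, ‖a k‖ := tsum_congr fun k => hnf z hz k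
        rw [h8]
        have h9 := hs.sum_add_tsum_compl (s := S)
        linarith
      rw [h6]
      refine (norm_sub_le _ _).trans (add_le_add ?_ h7)
      exact hC z hz
    -- Parseval
    set M : ℕ := (S.sup fun k => Finset.univ.sup fun j => k j) + 1 with hM
    have hM0 : 0 < M := Nat.succ_pos _
    have h5 : ∀ k ∈ S, ∀ j, k j < M := by
      intro k hk j
      rw [hM]
      refine Nat.lt_succ_of_le ?_
      refine le_trans ?_ (Finset.le_sup (f := fun k : σ →₀ ℕ => Finset.univ.sup fun j => k j) hk)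
      exact Finset.le_sup (f := fun j => k j) (Finset.mem_univ j)
    have h6 := parseval hM0 S h5 a
    have h7 : ∑ b : σ → Fin M, ‖∑ k ∈ S, a k * ∏ j, ru M (b j) ^ k j‖ ^ 2 ≤
        ∑ _b : σ → Fin M, (C + ε) ^ 2 := by
      refine Finset.sum_le_sum fun b _ => ?_
      exact pow_le_pow_left₀ (norm_nonneg _) (h4 _ fun j => norm_ru M (b j)) 2
    rw [h6, Finset.sum_const, Finset.card_univ, Fintype.card_fun, Fintype.card_fin, nsmul_eq_mul]
      at h7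
    push_cast at h7
    have h8 : (0 : ℝ) < (M : ℝ) ^ Fintype.card σ := by
      have : (0 : ℝ) < M := by exact_mod_cast hM0
      positivity
    exact le_of_mul_le_mul_left h7 h8
  have h2 : ∀ S : Finset (σ →₀ ℕ), ∑ k ∈ S, ‖a k‖ ^ 2 ≤ C ^ 2 := by
    intro S
    have h3 : √(∑ k ∈ S, ‖a k‖ ^ 2) ≤ C := by
      refine le_of_forall_pos_le_add fun ε hε => ?_
      obtain ⟨S0, hS0⟩ := h1 ε hε
      have h4 : ∑ k ∈ S, ‖a k‖ ^ 2 ≤ (C + ε) ^ 2 :=
        (Finset.sum_le_sum_of_subset_of_nonneg Finset.subset_union_left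
          fun k _ _ => by positivity).trans (hS0 (S ∪ S0) Finset.subset_union_right)
      exact (Real.sqrt_le_left (by linarith)).2 h4
    have h4 : (0 : ℝ) ≤ ∑ k ∈ S, ‖a k‖ ^ 2 := Finset.sum_nonneg fun k _ => by positivity
    calc ∑ k ∈ S, ‖a k‖ ^ 2 = √(∑ k ∈ S, ‖a k‖ ^ 2) ^ 2 := (Real.sq_sqrt h4).symm
      _ ≤ C ^ 2 := pow_le_pow_left₀ (Real.sqrt_nonneg _) h3 2
  have h3 : Summable fun k => ‖a k‖ ^ 2 :=
    summable_of_sum_le (fun k => by positivity) h2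
  exact ⟨h3, h3.tsum_le_of_sum_le h2⟩

end Pool.Agent.J6H96.TZ
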